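import Pool.Agent.X72.Td.B
import Pool.Agent.X72.Td.C

open Finset Pool.Agent.X72.Td

namespace Pool.Agent.Results.MP_fe499a_co.FanAndTwoHubs

/-- the graphs of diameter at most three without a subgraph `F` have unbounded treedepth -/
def UnboundedTreedepth {W : Type} (F : SimpleGraph W) : Prop :=
  ∀ k : ℕ, ∃ (V : Type) (_ : Fintype V) (G : SimpleGraph V),
    ¬ Contains G F ∧ DiamLEThree G ∧ ¬ TreedepthLE G k

/-- every finite graph `F` such that (A) no graph `F - x` is a linear forest, or (B) `F` has cycles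
of lengths `2 ^ v * s + 2` and `2 ^ v * t + 2` (`v ≥ 1`, `s`, `t` odd) whose common vertices are
pairwise adjacent: the `F`-subgraph-free graphs of diameter at most three have unbounded
treedepth -/
theorem result {W : Type} [Fintype W] (F : SimpleGraph W)
    (hF : (Nonempty W ∧ ∀ x : W, ¬ IsLinearForest (F.induce {x}ᶜ)) ∨
      ∃ (v s t : ℕ) (f g : ℕ → W), 1 ≤ v ∧ Odd s ∧ Odd t ∧
        IsCyc F (2 ^ v * s + 2) f ∧ IsCyc F (2 ^ v * t + 2) g ∧
        ∀ i < 2 ^ v * s + 2, ∀ i' < 2 ^ v * s + 2, ∀ j < 2 ^ v * t + 2, ∀ j' < 2 ^ v * t + 2,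
          f i = g j → f i' = g j' → f i ≠ f i' → F.Adj (f i) (f i')) :
    UnboundedTreedepth F := by
  intro k
  rcases hF with ⟨hne, hF⟩ | ⟨v, s, t, f, g, hv, hs, ht, hf, hg, hfg⟩
  · exact ⟨_, inferInstance, fan (2 ^ (k + 1)), fan_free F hne hF _, fan_diam _, fan_td k⟩
  · have h2 : 2 ^ v % 2 = 0 := by
      obtain ⟨u, rfl⟩ : ∃ u, v = u + 1 := ⟨v - 1, by omega⟩
      rw [pow_succ]
      omega
    have hL : 2 ≤ 2 ^ v := by
      have : 0 < 2 ^ v := by positivity
      omega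
    refine ⟨_, inferInstance, hub (2 ^ v) (2 ^ v * 2 ^ (k + 1)),
      hub_free F hL h2 (Nat.odd_iff.1 hs) (Nat.odd_iff.1 ht) f g hf hg hfg _,
      hub_diam hL (by positivity), hub_td k ?_⟩
    exact Nat.le_mul_of_pos_left _ (by omega)

end Pool.Agent.Results.MP_fe499a_co.FanAndTwoHubs
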